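import Pool.Agent.Lib.MP_591455_an.Final
import Pool.Agent.Lib.MP_591455_an.InvDom

/-!
# Dimension-free distortion of quasiconformal maps in terms of the linear dilatation

For k at least 1 let Q(n,k) be the class of continuous injective maps f of Euclidean n-space into
itself whose linear dilatation is bounded and is at most k almost everywhere, and let eps n k be the
supremum, over f in Q(n,k) and r > 0, of the quotient of the largest and the smallest distance between
f x and f 0 over the sphere of radius r about 0. We prove that the supremum of eps n k over all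
dimensions n at least 2 is finite for every k at least 1, with an explicit bound.

The tools are: Gehring type estimates of the pointwise Lipschitz constants of f and of its inverse by
the volume derivatives, with constant k and no dimensional factor; a translation (averaging) lemma which
compares a function with its translates over a set of given volume with no dimensional factor; decay of the
volume of preimages of small balls; and a logarithmic cut-off function.
-/

open MeasureTheory Set Metric Filter Topology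
open scoped ENNReal NNReal

namespace Pool.Agent.Results.MP_591455_an.FiniteE

open Pool.Agent.Lib.MP_591455_an

/-- The linear dilatation of f at x: limsup, as δ tends to 0 from above, of the quotient of the
largest and the smallest distance between f ξ and f x over the sphere of radius δ about x. -/
noncomputable def dil {n : ℕ} (f : E n → E n) (x : E n) : ℝ≥0∞ :=
  limsup (fun δ : ℝ => (⨆ ξ ∈ sphere x δ, edist (f ξ) (f x)) /
    (⨅ ξ ∈ sphere x δ, edist (f ξ) (f x))) (𝓝[>] 0)

/-- Injective k-quasiconformal maps of Euclidean n-space into itself: continuous, injective, with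
linear dilatation bounded everywhere and at most k almost everywhere. -/
structure IsQC (n : ℕ) (k : ℝ) (f : E n → E n) : Prop where
  cont : Continuous f
  inj : Function.Injective f
  bdd : ∃ K : ℝ≥0, ∀ x, dil f x ≤ K
  ae : ∀ᵐ x : E n, dil f x ≤ ENNReal.ofReal k

/-- The largest distance of f x from f 0 on the sphere of radius r. -/
noncomputable def Mf {n : ℕ} (f : E n → E n) (r : ℝ) : ℝ≥0∞ :=
  ⨆ x ∈ sphere (0 : E n) r, edist (f x) (f 0)

/-- The smallest distance of f x from f 0 on the sphere of radius r. -/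
noncomputable def mf {n : ℕ} (f : E n → E n) (r : ℝ) : ℝ≥0∞ :=
  ⨅ x ∈ sphere (0 : E n) r, edist (f x) (f 0)

/-- The distortion coefficient. -/
noncomputable def eps (n : ℕ) (k : ℝ) : ℝ≥0∞ :=
  ⨆ (f : E n → E n) (_ : IsQC n k f) (r : ℝ) (_ : 0 < r), Mf f r / mf f r

/-- The supremum of the distortion coefficients over all dimensions at least two. -/
noncomputable def Ecoef (k : ℝ) : ℝ≥0∞ := ⨆ (n : ℕ) (_ : 2 ≤ n), eps n k

theorem qs_of_dil_lt {n : ℕ} {f : E n → E n} {x : E n} {H : ℝ} (hH : 0 < H)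
    (h : dil f x < ENNReal.ofReal H) : Qs f H x := by
  have h1 := eventually_lt_of_limsup_lt h
  rw [Filter.Eventually, mem_nhdsGT_iff_exists_Ioo_subset] at h1
  obtain ⟨δ₀, hδ₀, hsub⟩ := h1
  refine ⟨δ₀, hδ₀, fun ξ ξ' hξ hξ' => ?_⟩
  rcases eq_or_ne ξ x with rfl | hne
  · rw [dist_self]; positivity
  have hpos : 0 < dist ξ x := dist_pos.2 hne
  have h2 := hsub ⟨hpos, hξ⟩
  simp only [mem_ofPred_eq] at h2
  have h3 : edist (f ξ) (f x) ≤ ⨆ ζ ∈ sphere x (dist ξ x), edist (f ζ) (f x) :=
    le_iSup₂_of_le ξ (by rw [mem_sphere]) le_rfl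
  have h4 : (⨅ ζ ∈ sphere x (dist ξ x), edist (f ζ) (f x)) ≤ edist (f ξ') (f x) :=
    iInf₂_le_of_le ξ' (by rw [mem_sphere, hξ']) le_rfl
  have hH0 : ENNReal.ofReal H ≠ 0 := by
    rw [Ne, ENNReal.ofReal_eq_zero, not_le]; exact hH
  have h5 : (⨆ ζ ∈ sphere x (dist ξ x), edist (f ζ) (f x)) ≤
      ENNReal.ofReal H * ⨅ ζ ∈ sphere x (dist ξ x), edist (f ζ) (f x) := by
    rw [← ENNReal.div_le_iff_le_mul]
    · exact h2.le
    · right; exact ENNReal.ofReal_ne_top
    · right; exact hH0
  have h6 : edist (f ξ) (f x) ≤ ENNReal.ofReal H * edist (f ξ') (f x) :=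
    h3.trans (h5.trans (by gcongr))
  rw [edist_dist, edist_dist, ← ENNReal.ofReal_mul hH.le,
    ENNReal.ofReal_le_ofReal_iff (by positivity)] at h6
  exact h6

theorem IsQC.qce {n : ℕ} (hn : 1 ≤ n) {k : ℝ} (hk : 1 ≤ k) {f : E n → E n} (hf : IsQC n k f) :
    QCE n k f := by
  refine ⟨invariance_of_domain hn hf.cont hf.inj, ?_, ?_⟩
  · obtain ⟨K, hK⟩ := hf.bdd
    refine ⟨K + 1, by simp, fun x => qs_of_dil_lt (by positivity) ?_⟩
    refine (hK x).trans_lt ?_
    rw [ENNReal.ofReal_add (by positivity) zero_le_one, ENNReal.ofReal_coe_nnreal,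
      ENNReal.ofReal_one]
    exact ENNReal.lt_add_right ENNReal.coe_ne_top one_ne_zero
  · intro H hH
    filter_upwards [hf.ae] with x hx
    refine qs_of_dil_lt (by linarith) (hx.trans_lt ?_)
    rw [ENNReal.ofReal_lt_ofReal_iff (by linarith)]
    exact hH

theorem qce_scale {n : ℕ} {k : ℝ} {f : E n → E n} (hf : QCE n k f) {r : ℝ} (hr : 0 < r) :
    QCE n k (fun x => f (r • x) - f 0) := by
  have hq : ∀ {H : ℝ} {x : E n}, Qs f H (r • x) → Qs (fun x => f (r • x) - f 0) H x := by
    rintro H x ⟨δ₀, hδ₀, h⟩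
    refine ⟨δ₀ / r, by positivity, fun ξ ξ' hξ hξ' => ?_⟩
    have e : ∀ ζ : E n, dist (r • ζ) (r • x) = r * dist ζ x := fun ζ => by
      rw [dist_smul₀, Real.norm_eq_abs, abs_of_pos hr]
    simp only [dist_sub_right]
    refine h (r • ξ) (r • ξ') ?_ ?_
    · rw [e]
      rw [lt_div_iff₀ hr] at hξ
      linarith
    · rw [e, e, hξ']
  refine ⟨?_, ?_, ?_⟩
  · have h1 : IsOpenEmbedding (fun x : E n => r • x) :=
      (Homeomorph.smulOfNeZero r hr.ne').isOpenEmbedding
    have h2 : IsOpenEmbedding (fun x : E n => x - f 0) := (Homeomorph.subRight (f 0)).isOpenEmbedding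
    exact h2.comp (hf.emb.comp h1)
  · obtain ⟨H, hH, h⟩ := hf.bdd
    exact ⟨H, hH, fun x => hq (h _)⟩
  · intro H hH
    have h := hf.ae H hH
    rw [ae_iff] at h ⊢
    have h2 : volume ((fun x : E n => r • x) ⁻¹' {a | ¬ Qs f H a}) = 0 := by
      rw [Measure.addHaar_preimage_smul volume hr.ne', h, mul_zero]
    exact measure_mono_null (fun x hx hq' => hx (hq hq')) h2

/-- Dimension-free distortion: for every injective k-quasiconformal map, the distances of f x from
f 0 on a sphere about 0 are comparable with a constant depending on k only. -/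
theorem edist_le {n : ℕ} (hn : 2 ≤ n) {k : ℝ} (hk : 1 ≤ k) {f : E n → E n} (hf : IsQC n k f)
    {r : ℝ} (hr : 0 < r) {x y : E n} (hx : x ∈ sphere (0 : E n) r) (hy : y ∈ sphere (0 : E n) r) :
    edist (f y) (f 0) ≤
      ENNReal.ofReal (5 / 3 * Real.exp ((24 * k / ek k ^ 2) ^ 2)) * edist (f x) (f 0) := by
  have h := distortion hn hk (qce_scale (hf.qce (by omega) hk) hr) (by simp)
    (a := r⁻¹ • x) (b := r⁻¹ • y)
    (by rw [norm_smul, norm_inv, Real.norm_eq_abs, abs_of_pos hr, mem_sphere_zero_iff_norm.1 hx,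
      inv_mul_cancel₀ hr.ne'])
    (by rw [norm_smul, norm_inv, Real.norm_eq_abs, abs_of_pos hr, mem_sphere_zero_iff_norm.1 hy,
      inv_mul_cancel₀ hr.ne'])
  simp only [smul_inv_smul₀ hr.ne'] at h
  rw [← dist_eq_norm, ← dist_eq_norm] at h
  rw [edist_dist, edist_dist, ← ENNReal.ofReal_mul (by positivity)]
  exact ENNReal.ofReal_le_ofReal h

theorem eps_le {n : ℕ} (hn : 2 ≤ n) {k : ℝ} (hk : 1 ≤ k) :
    eps n k ≤ ENNReal.ofReal (5 / 3 * Real.exp ((24 * k / ek k ^ 2) ^ 2)) := by
  refine iSup_le fun f => iSup_le fun hf => iSup_le fun r => iSup_le fun hr => ?_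
  set C := ENNReal.ofReal (5 / 3 * Real.exp ((24 * k / ek k ^ 2) ^ 2)) with hC
  have hC0 : C ≠ 0 := by
    rw [hC, Ne, ENNReal.ofReal_eq_zero, not_le]; positivity
  have hCt : C ≠ ∞ := ENNReal.ofReal_ne_top
  refine ENNReal.div_le_of_le_mul ?_
  refine iSup₂_le fun y hy => ?_
  rw [mul_comm, ← ENNReal.div_le_iff_le_mul (Or.inl hC0) (Or.inl hCt)]
  refine le_iInf₂ fun x hx => ?_
  rw [ENNReal.div_le_iff_le_mul (Or.inl hC0) (Or.inl hCt), mul_comm]
  exact edist_le hn hk hf hr hx hy

theorem Ecoef_le {k : ℝ} (hk : 1 ≤ k) :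
    Ecoef k ≤ ENNReal.ofReal (5 / 3 * Real.exp ((24 * k / ek k ^ 2) ^ 2)) :=
  iSup₂_le fun _ hn => eps_le hn hk

/-- For every k at least 1 the supremum over all dimensions n at least 2 of the distortion
coefficients eps n k is finite, with an explicit bound. -/
theorem result (k : ℝ) (hk : 1 ≤ k) :
    Ecoef k < ⊤ ∧
      Ecoef k ≤ ENNReal.ofReal
        (5 / 3 * Real.exp ((24 * k * (500 * Real.exp ((16 * k) ^ 2) * k) ^ 2) ^ 2)) := by
  have h := Ecoef_le hk
  have e : 24 * k / ek k ^ 2 = 24 * k * (500 * Real.exp ((16 * k) ^ 2) * k) ^ 2 := by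
    rw [ek, Ak]
    simp only [one_div, inv_pow, div_inv_eq_mul]
  rw [e] at h
  exact ⟨h.trans_lt ENNReal.ofReal_lt_top, h⟩

end Pool.Agent.Results.MP_591455_an.FiniteE
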